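import Pool.Agent.Helper30.EL.St

/-!
# Project EL, module PSE: values with a square factor
-/

set_option autoImplicit false

noncomputable section

namespace Pool.Agent.Helper7.EL

open Finset Filter Topology ArithmeticFunction
open Pool.Agent.Helper30.EL

/-- A set of numbers in one class. -/
private theorem card_class (J M : ℕ) (T : Finset ℕ) (hT : T ⊆ Icc 1 J)
    (h : ∀ a ∈ T, ∀ b ∈ T, (M : ℤ) ∣ (a : ℤ) - b) : T.card ≤ J / M + 1 := by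
  have h0 : T.card ≤ (range (J / M + 1)).card := by
    apply Finset.card_le_card_of_injOn (fun t => t / M)
    · intro t ht
      have h1 := Finset.mem_Icc.1 (hT ht)
      rw [Finset.coe_range, Set.mem_Iio]
      exact Nat.lt_succ_of_le (Nat.div_le_div_right h1.2)
    · intro a ha b hb hab
      have h1 : (a : ℤ) ≡ b [ZMOD M] := Int.modEq_iff_dvd.2 (h b hb a ha)
      have h2 : a % M = b % M := Int.natCast_modEq_iff.1 h1
      have hab' : a / M = b / M := hab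
      rw [← Nat.div_add_mod a M, ← Nat.div_add_mod b M, hab', h2]
  rwa [Finset.card_range] at h0

private theorem vv_cast (n c q : ℕ) :
    ((vv n c q : ℕ) : ℤ) = 2 * (n : ℤ) + (c : ℤ) * ((q : ℤ) ^ 2 + q + 1) := by
  unfold vv
  push_cast
  ring

/-- a prime divisor of a value does not divide `2 c` -/
private theorem not_dvd_two_c {n c p q : ℕ} (hp : p.Prime) (hco : Nat.Coprime c (2 * n))
    (h : p ∣ vv n c q) : ¬ (p : ℤ) ∣ 2 ∧ ¬ (p : ℤ) ∣ (c : ℤ) := by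
  have hc2 : Nat.Coprime c 2 := Nat.Coprime.coprime_dvd_right (Dvd.intro _ rfl) hco
  constructor
  · intro h2
    have h2' : p ∣ 2 := by exact_mod_cast h2
    have hp2 : p = 2 := (Nat.prime_dvd_prime_iff_eq hp Nat.prime_two).1 h2'
    rw [hp2] at h
    have hodd : ¬ 2 ∣ c := by
      intro h3
      have h4 := Nat.dvd_gcd h3 (dvd_refl 2)
      rw [hc2] at h4
      exact absurd (Nat.le_of_dvd one_pos h4) (by norm_num)
    unfold vv at h
    have h5 : 2 ∣ c * (q ^ 2 + q + 1) := by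
      have := (Nat.dvd_add_right (Dvd.intro n rfl : 2 ∣ 2 * n)).1 h
      exact this
    rcases (Nat.prime_two.dvd_mul).1 h5 with h6 | h6
    · exact hodd h6
    · have h7 : q ^ 2 + q + 1 = q * (q + 1) + 1 := by ring
      rw [h7] at h6
      have h8 : Even (q * (q + 1)) := Nat.even_mul_succ_self q
      obtain ⟨t, ht⟩ := h8
      omega
  · intro hc
    have hc' : p ∣ c := by exact_mod_cast hc
    unfold vv at h
    have h5 : p ∣ 2 * n := (Nat.dvd_add_left (Dvd.dvd.mul_right hc' _)).1 h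
    have h6 := Nat.dvd_gcd hc' h5
    rw [hco] at h6
    exact hp.one_lt.ne' (Nat.dvd_one.1 h6)

/-- two roots modulo the square -/
private theorem two_roots {p n c r s : ℕ} (hp : p.Prime) (hc : ¬ (p : ℤ) ∣ (c : ℤ))
    (hn : ¬ (p : ℤ) ∣ 3 * (c : ℤ) + 8 * n) (hr : ((p ^ 2 : ℕ) : ℤ) ∣ ((vv n c r : ℕ) : ℤ))
    (hs : ((p ^ 2 : ℕ) : ℤ) ∣ ((vv n c s : ℕ) : ℤ)) :
    ((p ^ 2 : ℕ) : ℤ) ∣ (r : ℤ) - s ∨ ((p ^ 2 : ℕ) : ℤ) ∣ (r : ℤ) + s + 1 := by
  have hpi := Nat.prime_iff_prime_int.1 hp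
  push_cast at hr hs ⊢
  rw [vv_cast] at hr hs
  have h1 : (p : ℤ) ^ 2 ∣ (c : ℤ) * (((r : ℤ) - s) * ((r : ℤ) + s + 1)) := by
    have h2 : (c : ℤ) * (((r : ℤ) - s) * ((r : ℤ) + s + 1)) =
        (2 * (n : ℤ) + (c : ℤ) * ((r : ℤ) ^ 2 + r + 1)) -
          (2 * (n : ℤ) + (c : ℤ) * ((s : ℤ) ^ 2 + s + 1)) := by
      ring
    rw [h2]
    exact dvd_sub hr hs
  have hcc : IsCoprime ((p : ℤ) ^ 2) (c : ℤ) := (hpi.coprime_iff_not_dvd.2 hc).pow_left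
  have h3 := hcc.dvd_of_dvd_mul_left h1
  by_cases ha : (p : ℤ) ∣ (r : ℤ) - s
  · by_cases hb : (p : ℤ) ∣ (r : ℤ) + s + 1
    · exfalso
      apply hn
      have h4 : (p : ℤ) ∣ 2 * (r : ℤ) + 1 := by
        have h5 : 2 * (r : ℤ) + 1 = ((r : ℤ) - s) + ((r : ℤ) + s + 1) := by ring
        rw [h5]
        exact dvd_add ha hb
      have h6 : (p : ℤ) ∣ 2 * (n : ℤ) + (c : ℤ) * ((r : ℤ) ^ 2 + r + 1) :=
        dvd_trans (dvd_pow_self _ two_ne_zero) hr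
      have h7 : 3 * (c : ℤ) + 8 * n =
          4 * (2 * (n : ℤ) + (c : ℤ) * ((r : ℤ) ^ 2 + r + 1)) -
            (c * (2 * (r : ℤ) + 1)) * (2 * (r : ℤ) + 1) := by ring
      rw [h7]
      exact dvd_sub (Dvd.dvd.mul_left h6 _) (Dvd.dvd.mul_left h4 _)
    · left
      exact ((hpi.coprime_iff_not_dvd.2 hb).pow_left).dvd_of_dvd_mul_right h3
  · right
    exact ((hpi.coprime_iff_not_dvd.2 ha).pow_left).dvd_of_dvd_mul_left h3

/-- the numbers with `p ^ 2 ∣ vv` -/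
private def Sp (a n c p : ℕ) : Finset ℕ := (Icc 1 a).filter (fun q => p ^ 2 ∣ vv n c q)

private theorem mem_Sp {a n c p q : ℕ} (h : q ∈ Sp a n c p) :
    q ∈ Icc 1 a ∧ p ^ 2 ∣ vv n c q := by
  unfold Sp at h
  exact Finset.mem_filter.1 h

private theorem card_one {a n c p : ℕ} (hp : p.Prime) (hco : Nat.Coprime c (2 * n))
    (hn : ¬ (p : ℤ) ∣ 3 * (c : ℤ) + 8 * n) :
    (Sp a n c p).card ≤ 2 * (a / p ^ 2 + 1) := by
  classical
  rcases (Sp a n c p).eq_empty_or_nonempty with h | ⟨r, hr⟩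
  · rw [h, Finset.card_empty]
    exact Nat.zero_le _
  · obtain ⟨hr1, hr2⟩ := mem_Sp hr
    obtain ⟨hd2, hdc⟩ := not_dvd_two_c hp hco (dvd_trans (dvd_pow_self p two_ne_zero) hr2)
    have hpi := Nat.prime_iff_prime_int.1 hp
    obtain ⟨A, hA⟩ : ∃ A : Finset ℕ, A = (Sp a n c p).filter
      (fun s : ℕ => ((p ^ 2 : ℕ) : ℤ) ∣ (r : ℤ) - s) := ⟨_, rfl⟩
    obtain ⟨B, hB⟩ : ∃ B : Finset ℕ, B = (Sp a n c p).filter
      (fun s : ℕ => ((p ^ 2 : ℕ) : ℤ) ∣ (r : ℤ) + s + 1) := ⟨_, rfl⟩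
    have hsub : Sp a n c p ⊆ A ∪ B := by
      intro s hs
      obtain ⟨_, hs2⟩ := mem_Sp hs
      rw [Finset.mem_union, hA, hB, Finset.mem_filter, Finset.mem_filter]
      rcases two_roots hp hdc hn (Int.natCast_dvd_natCast.2 hr2) (Int.natCast_dvd_natCast.2 hs2)
        with h | h
      · exact Or.inl ⟨hs, h⟩
      · exact Or.inr ⟨hs, h⟩
    have cA : A.card ≤ a / p ^ 2 + 1 := by
      refine card_class _ _ A ?_ ?_
      · intro s hs
        rw [hA] at hs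
        exact (mem_Sp (Finset.mem_filter.1 hs).1).1
      · intro u hu v hv
        rw [hA] at hu hv
        have h1 := (Finset.mem_filter.1 hu).2
        have h2 := (Finset.mem_filter.1 hv).2
        have h3 : (u : ℤ) - v = ((r : ℤ) - v) - ((r : ℤ) - u) := by ring
        rw [h3]
        exact dvd_sub h2 h1
    have cB : B.card ≤ a / p ^ 2 + 1 := by
      refine card_class _ _ B ?_ ?_
      · intro s hs
        rw [hB] at hs
        exact (mem_Sp (Finset.mem_filter.1 hs).1).1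
      · intro u hu v hv
        rw [hB] at hu hv
        have h1 := (Finset.mem_filter.1 hu).2
        have h2 := (Finset.mem_filter.1 hv).2
        have h3 : (u : ℤ) - v = ((r : ℤ) + u + 1) - ((r : ℤ) + v + 1) := by
          ring
        rw [h3]
        exact dvd_sub h1 h2
    calc (Sp a n c p).card ≤ (A ∪ B).card := Finset.card_le_card hsub
      _ ≤ A.card + B.card := Finset.card_union_le _ _
      _ ≤ 2 * (a / p ^ 2 + 1) := by omega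

private theorem card_two {a n c p : ℕ} (hp : p.Prime) (hco : Nat.Coprime c (2 * n))
    (hn : (p : ℤ) ∣ 3 * (c : ℤ) + 8 * n) :
    (Sp a n c p).card ≤ a / p + 1 := by
  refine card_class _ _ (Sp a n c p) ?_ ?_
  · intro s hs
    exact (mem_Sp hs).1
  · intro u hu v hv
    have hpi := Nat.prime_iff_prime_int.1 hp
    obtain ⟨hd2, hdc⟩ := not_dvd_two_c hp hco
      (dvd_trans (dvd_pow_self p two_ne_zero) (mem_Sp hu).2)
    have hx : ∀ w ∈ Sp a n c p, (p : ℤ) ∣ 2 * (w : ℤ) + 1 := by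
      intro w hw
      have h1 : (p : ℤ) ∣ ((vv n c w : ℕ) : ℤ) :=
        Int.natCast_dvd_natCast.2 (dvd_trans (dvd_pow_self p two_ne_zero) (mem_Sp hw).2)
      rw [vv_cast] at h1
      have h2 : (p : ℤ) ∣ (c : ℤ) * (2 * (w : ℤ) + 1) ^ 2 := by
        have h3 : (c : ℤ) * (2 * (w : ℤ) + 1) ^ 2 =
            4 * (2 * (n : ℤ) + (c : ℤ) * ((w : ℤ) ^ 2 + w + 1)) - (3 * (c : ℤ) + 8 * n) := by
          ring
        rw [h3]
        exact dvd_sub (Dvd.dvd.mul_left h1 _) hn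
      rcases hpi.dvd_or_dvd h2 with h4 | h4
      · exact absurd h4 hdc
      · exact hpi.dvd_of_dvd_pow h4
    have h4 : (p : ℤ) ∣ 2 * ((u : ℤ) - v) := by
      have h5 : 2 * ((u : ℤ) - v) = (2 * (u : ℤ) + 1) - (2 * (v : ℤ) + 1) := by ring
      rw [h5]
      exact dvd_sub (hx u hu) (hx v hv)
    exact (hpi.coprime_iff_not_dvd.2 hd2).dvd_of_dvd_mul_left h4

/-- few large primes divide `3 c + 8 n` -/
private theorem few {a n c : ℕ} (ha : 2 ≤ a) (hc1 : 1 ≤ c) (hca : c ≤ a) (hna : n ≤ a ^ 3)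
    (Q : Finset ℕ) (hQ : ∀ p ∈ Q, p.Prime ∧
    (a : ℝ) ^ (9 / 100 : ℝ) ≤ (p : ℝ) ∧ (p : ℤ) ∣ 3 * (c : ℤ) + 8 * n) : (Q.card : ℝ) ≤ 78 := by
  have hn1 : (1 : ℝ) < (a : ℝ) := by
    have : 1 < a := by omega
    exact_mod_cast this
  have hn0 : (0 : ℝ) ≤ (a : ℝ) := by linarith
  have hd : ∏ p ∈ Q, p ∣ 3 * c + 8 * n := by
    apply Finset.prod_primes_dvd
    · intro p hp
      exact (hQ p hp).1.prime
    · intro p hp
      have h := (hQ p hp).2.2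
      exact_mod_cast h
  have hle : ∏ p ∈ Q, p ≤ a ^ 7 := by
    refine le_trans (Nat.le_of_dvd (by omega) hd) ?_
    have h1 : a ≤ a ^ 3 := Nat.le_self_pow (by norm_num) a
    have h2 : 2 ^ 4 ≤ a ^ 4 := Nat.pow_le_pow_left ha 4
    calc 3 * c + 8 * n ≤ 2 ^ 4 * a ^ 3 := by
          have h3 : 0 ≤ a ^ 3 := Nat.zero_le _
          norm_num
          omega
      _ ≤ a ^ 4 * a ^ 3 := Nat.mul_le_mul_right _ h2
      _ = a ^ 7 := by ring
  have h7 : ((a : ℝ) ^ (9 / 100 : ℝ)) ^ Q.card ≤ (a : ℝ) ^ (7 : ℝ) := by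
    calc ((a : ℝ) ^ (9 / 100 : ℝ)) ^ Q.card = ∏ _p ∈ Q, (a : ℝ) ^ (9 / 100 : ℝ) := by
          rw [Finset.prod_const]
      _ ≤ ∏ p ∈ Q, (p : ℝ) := by
          apply Finset.prod_le_prod
          · intro p _
            exact Real.rpow_nonneg hn0 _
          · intro p hp
            exact (hQ p hp).2.1
      _ = ((∏ p ∈ Q, p : ℕ) : ℝ) := by push_cast; rfl
      _ ≤ ((a ^ 7 : ℕ) : ℝ) := by exact_mod_cast hle
      _ = (a : ℝ) ^ (7 : ℝ) := by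
          push_cast
          rw [← Real.rpow_natCast]
          norm_num
  rw [← Real.rpow_natCast, ← Real.rpow_mul hn0, Real.rpow_le_rpow_left_iff hn1] at h7
  linarith

/-- PSE. -/
theorem hPSE (_hR : StRT) : StPSE := by
  classical
  refine ⟨162, by norm_num, ?_⟩
  intro a n c ha hco hc1 hca hna
  have hn1 : (1 : ℝ) ≤ (a : ℝ) := by
    have : 1 ≤ a := by omega
    exact_mod_cast this
  have hn0 : (0 : ℝ) < (a : ℝ) := by linarith
  obtain ⟨z, hz⟩ : ∃ z : ℝ, z = (a : ℝ) ^ (9 / 100 : ℝ) := ⟨_, rfl⟩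
  obtain ⟨y, hy⟩ : ∃ y : ℝ, y = (a : ℝ) ^ (9 / 10 : ℝ) := ⟨_, rfl⟩
  obtain ⟨x, hx⟩ : ∃ x : ℝ, x = (a : ℝ) ^ (95 / 100 : ℝ) := ⟨_, rfl⟩
  have hz1 : 1 ≤ z := by
    rw [hz]
    exact Real.one_le_rpow hn1 (by norm_num)
  have hz0 : 0 < z := by linarith
  have hy0 : 0 ≤ y := by
    rw [hy]
    positivity
  have hx1 : 1 ≤ x := by
    rw [hx]
    exact Real.one_le_rpow hn1 (by norm_num)
  have hyx : y ≤ x := by
    rw [hy, hx]
    exact Real.rpow_le_rpow_of_exponent_le hn1 (by norm_num)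
  have hnz : (a : ℝ) / z ≤ x := by
    rw [hz, hx]
    have h1 : (a : ℝ) / (a : ℝ) ^ (9 / 100 : ℝ) = (a : ℝ) ^ (1 - 9 / 100 : ℝ) := by
      rw [Real.rpow_sub hn0, Real.rpow_one]
    rw [h1]
    exact Real.rpow_le_rpow_of_exponent_le hn1 (by norm_num)
  obtain ⟨k, hk⟩ : ∃ k : ℕ, k = ⌈z⌉₊ - 1 := ⟨_, rfl⟩
  have hcz : 1 ≤ ⌈z⌉₊ := Nat.one_le_ceil_iff.2 hz0
  have hk1 : (z : ℝ) ≤ (k : ℝ) + 1 := by
    have h1 : k + 1 = ⌈z⌉₊ := by omega
    have h2 : ((k : ℝ) + 1) = ((⌈z⌉₊ : ℕ) : ℝ) := by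
      rw [← h1]
      push_cast
      ring
    rw [h2]
    exact Nat.le_ceil z
  obtain ⟨I, hI⟩ : ∃ I : Finset ℕ, I = Ioo k (⌊y⌋₊ + 1) := ⟨_, rfl⟩
  obtain ⟨P, hP⟩ : ∃ P : Finset ℕ, P = I.filter Nat.Prime := ⟨_, rfl⟩
  have hPz : ∀ p ∈ P, z ≤ (p : ℝ) := by
    intro p hp
    rw [hP, Finset.mem_filter, hI, Finset.mem_Ioo] at hp
    have h1 : k + 1 ≤ p := hp.1.1
    have h2 : (k : ℝ) + 1 ≤ (p : ℝ) := by exact_mod_cast h1
    linarith
  have hPp : ∀ p ∈ P, p.Prime := by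
    intro p hp
    rw [hP, Finset.mem_filter] at hp
    exact hp.2
  have hsub : ((Icc 1 a).filter (fun q => ∃ p : ℕ, p.Prime ∧
      (a : ℝ) ^ (9 / 100 : ℝ) ≤ (p : ℝ) ∧ (p : ℝ) ≤ (a : ℝ) ^ (9 / 10 : ℝ) ∧
      p ^ 2 ∣ vv n c q)) ⊆ P.biUnion (Sp a n c) := by
    intro j hj
    obtain ⟨h1, p, hp, h2, h3, h4⟩ := Finset.mem_filter.1 hj
    rw [Finset.mem_biUnion]
    refine ⟨p, ?_, Finset.mem_filter.2 ⟨h1, h4⟩⟩
    rw [hP, Finset.mem_filter, hI, Finset.mem_Ioo]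
    rw [← hz] at h2
    rw [← hy] at h3
    refine ⟨⟨?_, ?_⟩, hp⟩
    · have h5 : ⌈z⌉₊ ≤ p := Nat.ceil_le.2 h2
      omega
    · exact Nat.lt_succ_of_le (Nat.le_floor h3)
  have hcard : (((Icc 1 a).filter (fun q => ∃ p : ℕ, p.Prime ∧
      (a : ℝ) ^ (9 / 100 : ℝ) ≤ (p : ℝ) ∧ (p : ℝ) ≤ (a : ℝ) ^ (9 / 10 : ℝ) ∧
      p ^ 2 ∣ vv n c q)).card : ℝ) ≤ ∑ p ∈ P, ((Sp a n c p).card : ℝ) := by
    have h1 := (Finset.card_le_card hsub).trans
      (Finset.card_biUnion_le (s := P) (t := Sp a n c))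
    exact_mod_cast h1
  rw [← Finset.sum_filter_add_sum_filter_not P (fun p => (p : ℤ) ∣ 3 * (c : ℤ) + 8 * n)] at hcard
  have hS1 : ∑ p ∈ P.filter (fun p : ℕ => (p : ℤ) ∣ 3 * (c : ℤ) + 8 * n),
      ((Sp a n c p).card : ℝ) ≤ 156 * x := by
    have h1 : ∀ p ∈ P.filter (fun p : ℕ => (p : ℤ) ∣ 3 * (c : ℤ) + 8 * n),
        ((Sp a n c p).card : ℝ) ≤ 2 * x := by
      intro p hp
      obtain ⟨hp1, hp2⟩ := Finset.mem_filter.1 hp
      have h2 : ((Sp a n c p).card : ℝ) ≤ ((a / p + 1 : ℕ) : ℝ) := by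
        exact_mod_cast card_two (hPp p hp1) hco hp2
      have h3 : (((a / p : ℕ)) : ℝ) ≤ (a : ℝ) / z := by
        calc (((a / p : ℕ)) : ℝ) ≤ (a : ℝ) / (p : ℝ) := Nat.cast_div_le
          _ ≤ (a : ℝ) / z := div_le_div_of_nonneg_left hn0.le hz0 (hPz p hp1)
      push_cast at h2
      linarith
    have h4 := Finset.sum_le_sum h1
    rw [Finset.sum_const, nsmul_eq_mul] at h4
    have h5 : ((P.filter (fun p : ℕ => (p : ℤ) ∣ 3 * (c : ℤ) + 8 * n)).card : ℝ) ≤ 78 := by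
      apply few ha hc1 hca hna
      intro p hp
      obtain ⟨hp1, hp2⟩ := Finset.mem_filter.1 hp
      exact ⟨hPp p hp1, by rw [← hz]; exact hPz p hp1, hp2⟩
    calc _ ≤ _ := h4
      _ ≤ 78 * (2 * x) := mul_le_mul_of_nonneg_right h5 (by linarith)
      _ = 156 * x := by ring
  have hS2 : ∑ p ∈ P.filter (fun p : ℕ => ¬ (p : ℤ) ∣ 3 * (c : ℤ) + 8 * n),
      ((Sp a n c p).card : ℝ) ≤ 6 * x := by
    have h1 : ∀ p ∈ P.filter (fun p : ℕ => ¬ (p : ℤ) ∣ 3 * (c : ℤ) + 8 * n),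
        ((Sp a n c p).card : ℝ) ≤ 2 * (a : ℝ) * ((p : ℝ) ^ 2)⁻¹ + 2 := by
      intro p hp
      obtain ⟨hp1, hp2⟩ := Finset.mem_filter.1 hp
      have h2 : ((Sp a n c p).card : ℝ) ≤ ((2 * (a / p ^ 2 + 1) : ℕ) : ℝ) := by
        exact_mod_cast card_one (hPp p hp1) hco hp2
      have h3 : (((a / p ^ 2 : ℕ)) : ℝ) ≤ (a : ℝ) * ((p : ℝ) ^ 2)⁻¹ := by
        calc (((a / p ^ 2 : ℕ)) : ℝ) ≤ (a : ℝ) / ((p ^ 2 : ℕ) : ℝ) :=
              Nat.cast_div_le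
          _ = (a : ℝ) * ((p : ℝ) ^ 2)⁻¹ := by
              rw [div_eq_mul_inv]
              push_cast
              rfl
      push_cast at h2
      linarith
    have h4 := Finset.sum_le_sum h1
    have h5 : ∑ p ∈ P.filter (fun p : ℕ => ¬ (p : ℤ) ∣ 3 * (c : ℤ) + 8 * n),
        (2 * (a : ℝ) * ((p : ℝ) ^ 2)⁻¹ + 2) ≤ ∑ p ∈ I, (2 * (a : ℝ) * ((p : ℝ) ^ 2)⁻¹ + 2) := by
      apply Finset.sum_le_sum_of_subset_of_nonneg
      · intro p hp
        have hp1 := (Finset.mem_filter.1 hp).1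
        rw [hP] at hp1
        exact (Finset.mem_filter.1 hp1).1
      · intro p _ _
        positivity
    have h6 : ∑ p ∈ I, (2 * (a : ℝ) * ((p : ℝ) ^ 2)⁻¹ + 2) =
        2 * (a : ℝ) * ∑ p ∈ I, ((p : ℝ) ^ 2)⁻¹ + 2 * (I.card : ℝ) := by
      rw [Finset.sum_add_distrib, ← Finset.mul_sum, Finset.sum_const, nsmul_eq_mul]
      ring
    have h7 : ∑ p ∈ I, ((p : ℝ) ^ 2)⁻¹ ≤ 2 / z := by
      rw [hI]
      refine (sum_Ioo_inv_sq_le k (⌊y⌋₊ + 1)).trans ?_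
      exact div_le_div_of_nonneg_left (by norm_num) hz0 hk1
    have h8 : (I.card : ℝ) ≤ y := by
      rw [hI, Nat.card_Ioo]
      have h9 : ⌊y⌋₊ + 1 - k - 1 ≤ ⌊y⌋₊ := by omega
      have h10 : ((⌊y⌋₊ + 1 - k - 1 : ℕ) : ℝ) ≤ ((⌊y⌋₊ : ℕ) : ℝ) := by exact_mod_cast h9
      exact h10.trans (Nat.floor_le hy0)
    have h11 : 2 * (a : ℝ) * ∑ p ∈ I, ((p : ℝ) ^ 2)⁻¹ ≤ 4 * x := by
      calc 2 * (a : ℝ) * ∑ p ∈ I, ((p : ℝ) ^ 2)⁻¹ ≤ 2 * (a : ℝ) * (2 / z) :=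
            mul_le_mul_of_nonneg_left h7 (by positivity)
        _ = 4 * ((a : ℝ) / z) := by ring
        _ ≤ 4 * x := by linarith
    linarith
  rw [← hx]
  linarith

end Pool.Agent.Helper7.EL
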